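import Pool.Agent.H92.KConv

set_option autoImplicit false
open MeasureTheory Pointwise

namespace Pool.Agent.Results.MP_1453e0_an.NotEquivalent

/-- symmetric convex body -/
def IsBody {n : ℕ} (K : Set (EuclideanSpace ℝ (Fin n))) : Prop :=
  IsCompact K ∧ Convex ℝ K ∧ (interior K).Nonempty ∧ -K = K

/-- mean over the unit sphere for the normalised rotation invariant measure -/
noncomputable def sphAvg {n : ℕ} (g : EuclideanSpace ℝ (Fin n) → ℝ) : ℝ :=
  ⨍ x : Metric.sphere (0 : EuclideanSpace ℝ (Fin n)) 1, g x.1 ∂(volume.toSphere)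

/-- `M(K)` -/
noncomputable def M {n : ℕ} (K : Set (EuclideanSpace ℝ (Fin n))) : ℝ := sphAvg (gauge K)

/-- `M*(K)` -/
noncomputable def Mstar {n : ℕ} (K : Set (EuclideanSpace ℝ (Fin n))) : ℝ :=
  sphAvg fun x => sSup ((fun y => inner ℝ x y) '' K)

/-- `MM*(K)` -/
noncomputable def MM {n : ℕ} (K : Set (EuclideanSpace ℝ (Fin n))) : ℝ :=
  ⨅ T : EuclideanSpace ℝ (Fin n) ≃L[ℝ] EuclideanSpace ℝ (Fin n), M (T '' K) * Mstar (T '' K)

/-- the sign attached to a bit -/
def sg (b : Bool) : ℝ := if b then 1 else -1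

/-- the norm of `L₂({-1,1}^m; X_K)` -/
noncomputable def L2 {n m : ℕ} (K : Set (EuclideanSpace ℝ (Fin n)))
    (f : (Fin m → Bool) → EuclideanSpace ℝ (Fin n)) : ℝ :=
  √((∑ ε, gauge K (f ε) ^ 2) / 2 ^ m)

/-- the Rademacher projection `R_m` -/
noncomputable def Rad {n m : ℕ} (f : (Fin m → Bool) → EuclideanSpace ℝ (Fin n)) :
    (Fin m → Bool) → EuclideanSpace ℝ (Fin n) :=
  fun ε => ∑ i, sg (ε i) • (((2 : ℝ) ^ m)⁻¹ • ∑ η : Fin m → Bool, sg (η i) • f η)

open Pool.Agent.H92.KConv in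
theorem result : ∀ C : ℝ, ∃ (n : ℕ) (K : Set (EuclideanSpace ℝ (Fin n))), 0 < n ∧ IsBody K ∧
    ∃ (m : ℕ) (f : (Fin m → Bool) → EuclideanSpace ℝ (Fin n)), C * MM K * L2 K f < L2 K (Rad f) := by
  intro C
  obtain ⟨t, ht⟩ := exists_nat_gt (9 * |C|)
  have ht0 : 0 < t := by
    have : (0 : ℝ) < t := lt_of_le_of_lt (by positivity) ht
    exact_mod_cast this
  set c := Fintype.card (Fin (t ^ 2) → Bool) with hc
  have hc0 : 0 < c := Fintype.card_pos
  obtain ⟨e⟩ : Nonempty ((Fin (t ^ 2) → Bool) ↪ Fin (c ^ 2)) :=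
    Function.Embedding.nonempty_of_card_le (by rw [Fintype.card_fin, ← hc]; nlinarith)
  refine ⟨c ^ 2, body e, by positivity, ⟨body_compact e, body_convex e, body_int e, body_neg e⟩,
    t ^ 2, fun ε => EuclideanSpace.single (e ε) 1, ?_⟩
  have h0 : (0 : EuclideanSpace ℝ (Fin (c ^ 2))) ∈ body e := by simp [body]
  have hnn : ∀ T : EuclideanSpace ℝ (Fin (c ^ 2)) ≃L[ℝ] EuclideanSpace ℝ (Fin (c ^ 2)),
      0 ≤ M (T '' body e) ∧ 0 ≤ Mstar (T '' body e) := fun T =>
    ⟨integral_nonneg fun x => gauge_nonneg _,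
      integral_nonneg fun x => Real.sSup_nonneg' ⟨_, ⟨_, ⟨0, h0, rfl⟩, rfl⟩, by simp⟩⟩
  have h1 : 0 ≤ MM (body e) := le_ciInf fun T => mul_nonneg (hnn T).1 (hnn T).2
  have h2 : MM (body e) ≤ 2 := by
    refine (ciInf_le ⟨0, ?_⟩ (ContinuousLinearEquiv.refl ℝ _)).trans ?_
    · rintro _ ⟨T, rfl⟩
      exact mul_nonneg (hnn T).1 (hnn T).2
    · have a := (hnn (ContinuousLinearEquiv.refl ℝ _)).2
      simp only [ContinuousLinearEquiv.coe_refl', Set.image_id] at a ⊢
      have b : M (body e) ≤ 2 := M_le e hc0 rfl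
      have d : Mstar (body e) ≤ 1 := Mstar_le e (by positivity)
      nlinarith
  have h3 : L2 (body e) (fun ε => EuclideanSpace.single (e ε) (1 : ℝ)) = 1 := by
    simp [L2, gauge_single]
  have h4 : 2 / 9 * t ≤ L2 (body e) (Rad fun ε => EuclideanSpace.single (e ε) (1 : ℝ)) := by
    apply Real.le_sqrt_of_sq_le
    rw [le_div_iff₀ (by positivity)]
    have : ∀ ε, (2 / 9 * t : ℝ) ^ 2 ≤
        gauge (body e) (Rad (fun ε => EuclideanSpace.single (e ε) (1 : ℝ)) ε) ^ 2 := by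
      intro ε
      apply pow_le_pow_left₀ (by positivity)
      rw [gauge_body]
      refine le_trans ?_ (le_max_right _ _)
      have a := first t ht0 (fun i => sgn (ε i)) (fun i => by unfold sgn; split_ifs <;> norm_num)
      have b : ∀ η, Rad (fun ε => EuclideanSpace.single (e ε) (1 : ℝ)) ε (e η) =
          ((2 : ℝ) ^ (t ^ 2))⁻¹ * ∑ i, sgn (ε i) * sgn (η i) := fun η => rad e ε η
      simp only [b, abs_mul, ← Finset.mul_sum]
      rw [abs_of_pos (by positivity), le_inv_mul_iff₀ (by positivity), mul_comm]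
      exact a
    refine le_trans (le_of_eq ?_) (Finset.sum_le_sum fun ε _ => this ε)
    simp [mul_comm]
  rw [h3, mul_one]
  nlinarith [le_abs_self C, abs_nonneg C]

end Pool.Agent.Results.MP_1453e0_an.NotEquivalent
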